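import Pool.Agent.Y359.KN.Kem
import Pool.Agent.Y150.KN.Stm2

/-!
# The stronger form of Kempf's theorem for the general linear group (S_kem2)
-/

set_option autoImplicit false

namespace Pool.Agent.Y359.KN

open Matrix Pool.Agent.Y150.KN

universe v

section perm
variable {n : ℕ} {L : Type v} [Field L]

/-- a matrix which respects the filtrations of two weights -/
def PP (w w' : Fin n → ℝ) (p : Matrix (Fin n) (Fin n) L) : Prop :=
  ∀ j i, p j i ≠ 0 → w i ≤ w' j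

lemma PP.mul {w₁ w₂ w₃ : Fin n → ℝ} {p q : Matrix (Fin n) (Fin n) L} (hp : PP w₂ w₃ p)
    (hq : PP w₁ w₂ q) : PP w₁ w₃ (p * q) := by
  intro j i h
  rw [Matrix.mul_apply] at h
  obtain ⟨k, -, hk⟩ := Finset.exists_ne_zero_of_sum_ne_zero h
  exact (hq k i (right_ne_zero_of_mul hk)).trans (hp j k (left_ne_zero_of_mul hk))

lemma PP_pu {w w' : Fin n → ℝ} (f : Equiv.Perm (Fin n)) (h : ∀ i, w i ≤ w' (f i)) :
    PP w w' (pu L f : Matrix (Fin n) (Fin n) L) := by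
  intro j i hne
  rw [pu_apply] at hne
  have h1 : j = f i := by
    by_contra hcon
    exact hne (if_neg hcon)
  rw [h1]
  exact h i

lemma PP_pu_inv {w w' : Fin n → ℝ} (f : Equiv.Perm (Fin n)) (h : ∀ i, w (f i) ≤ w' i) :
    PP w w' (((pu L f)⁻¹ : (Matrix (Fin n) (Fin n) L)ˣ) : Matrix (Fin n) (Fin n) L) := by
  intro j i hne
  rw [pu_inv_apply] at hne
  have h1 : i = f j := by
    by_contra hcon
    apply hne
    rw [if_neg]
    intro h2
    exact hcon (by rw [h2]; simp)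
  rw [h1]
  exact h j

end perm

/-- **S_kem2** -/
theorem main_kem2 : S_kem2.{v} := by
  intro L _ n r τ _ Z hex
  obtain ⟨w₀, ⟨g₀, hg₀⟩, hmin₀⟩ := exists_min Z hex
  -- feasible pairs can be permuted
  have hperm : ∀ (g₀ : (Matrix (Fin n) (Fin n) L)ˣ) (w₀ : Fin n → ℝ) (σ : Equiv.Perm (Fin n)),
      Feas Z g₀ w₀ → Feas Z (pu L σ.symm * g₀) (w₀ ∘ σ) := by
    intro g₀ w₀ σ h
    refine tra L n r τ Z g₀ _ w₀ _ h ?_ ?_
    · rw [mul_inv_cancel_right]
      exact PP_pu _ fun i => by simp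
    · rw [_root_.mul_inv_rev, mul_inv_cancel_left]
      exact PP_pu_inv _ fun i => by simp
  have hanti : ∀ w₀ : Fin n → ℝ, ∃ σ : Equiv.Perm (Fin n), Antitone (w₀ ∘ σ) := by
    intro w₀
    refine ⟨Tuple.sort (fun i => - w₀ i), ?_⟩
    have := Tuple.monotone_sort (fun i => - w₀ i)
    intro i j hij
    have h := this hij
    simp only [Function.comp_apply] at h ⊢
    linarith
  obtain ⟨σ, hσ⟩ := hanti w₀
  set w : Fin n → ℝ := w₀ ∘ σ with hw
  set g : (Matrix (Fin n) (Fin n) L)ˣ := pu L σ.symm * g₀ with hg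
  have hF : Feas Z g w := hperm g₀ w₀ σ hg₀
  have hmin : ∀ w', (∃ g, Feas Z g w') → N2 w ≤ N2 w' := by
    intro w' hw'
    rw [hw, N2_perm]
    exact hmin₀ w' hw'
  refine ⟨g, w, hF, fun g₁ w₁ hF₁ hle₁ => ?_⟩
  obtain ⟨σ₁, hσ₁⟩ := hanti w₁
  set w₂ : Fin n → ℝ := w₁ ∘ σ₁ with hw₂
  set g₂ : (Matrix (Fin n) (Fin n) L)ˣ := pu L σ₁.symm * g₁ with hg₂
  have hF₂ : Feas Z g₂ w₂ := hperm g₁ w₁ σ₁ hF₁
  have hle : N2 w₂ ≤ N2 w := by
    rw [hw₂, N2_perm]
    exact hle₁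
  obtain ⟨b, b', f, hb, hb', hbf⟩ := bru L n (g₂ * g⁻¹)
  have hbi := upper_inv hb
  have hbi' := upper_inv hb'
  -- the two pairs in relative position `f`
  set c : (Matrix (Fin n) (Fin n) L)ˣ := b'⁻¹ * g with hc
  set c₂ : (Matrix (Fin n) (Fin n) L)ˣ := b * g₂ with hc₂
  have hFc : Feas Z c w := by
    refine tra L n r τ Z g c w w hF ?_ ?_
    · rw [hc, mul_inv_cancel_right]
      exact Pw_upper hσ hbi'
    · rw [hc, _root_.mul_inv_rev, mul_inv_cancel_left, inv_inv]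
      exact Pw_upper hσ hb'
  have hFc₂ : Feas Z c₂ w₂ := by
    refine tra L n r τ Z g₂ c₂ w₂ w₂ hF₂ ?_ ?_
    · rw [hc₂, mul_inv_cancel_right]
      exact Pw_upper hσ₁ hb
    · rw [hc₂, _root_.mul_inv_rev, mul_inv_cancel_left]
      exact Pw_upper hσ₁ hbi
  have hcc : c₂ * c⁻¹ = pu L f := by
    apply Units.ext
    ext i j
    rw [pu_apply, ← hbf i j, hc, hc₂, _root_.mul_inv_rev, inv_inv]
    simp only [mul_assoc]
  have hcc' : c * c₂⁻¹ = (pu L f)⁻¹ := by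
    rw [← hcc]
    group
  have hFcf : Feas Z c (w₂ ∘ f) := by
    refine tra L n r τ Z c₂ c w₂ (w₂ ∘ f) hFc₂ ?_ ?_
    · rw [hcc']
      exact PP_pu_inv _ fun i => le_rfl
    · rw [hcc]
      exact PP_pu _ fun i => le_rfl
  have hFm : Feas Z c (fun i => (w i + w₂ (f i)) / 2) := by
    intro t J I hne
    have h1 := hFc t J I hne
    have h2 := hFcf t J I hne
    simp only [Function.comp_apply] at h2
    rw [← Finset.sum_div, ← Finset.sum_div, Finset.sum_add_distrib, Finset.sum_add_distrib]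
    linarith
  have h3 := hmin _ ⟨c, hFm⟩
  have h4 : N2 (fun i => w i - w₂ (f i)) ≤ 0 := by
    have h5 := N2_perm w₂ f
    have h6 : 4 * N2 (fun i => (w i + w₂ (f i)) / 2) + N2 (fun i => w i - w₂ (f i)) =
        2 * N2 w + 2 * N2 (w₂ ∘ f) := by
      unfold N2
      rw [Finset.mul_sum, Finset.mul_sum, Finset.mul_sum, ← Finset.sum_add_distrib,
        ← Finset.sum_add_distrib]
      refine Finset.sum_congr rfl fun i _ => ?_
      simp only [Function.comp_apply]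
      ring
    rw [h5] at h6
    linarith
  have hwf : ∀ i, w₂ (f i) = w i := by
    intro i
    have h5 : ∀ i ∈ Finset.univ, (w i - w₂ (f i)) ^ 2 = 0 := by
      rw [← Finset.sum_eq_zero_iff_of_nonneg (fun i _ => sq_nonneg _)]
      exact le_antisymm h4 (Finset.sum_nonneg fun i _ => sq_nonneg _)
    have h6 := pow_eq_zero_iff (two_ne_zero) |>.1 (h5 i (Finset.mem_univ i))
    linarith
  have hPf : PP w w₂ (pu L f : Matrix (Fin n) (Fin n) L) := PP_pu _ fun i => (hwf i).ge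
  have hPf' : PP w₂ w (((pu L f)⁻¹ : (Matrix (Fin n) (Fin n) L)ˣ) : Matrix (Fin n) (Fin n) L) :=
    PP_pu_inv _ fun i => (hwf i).le
  have e1 : g₁ * g⁻¹ = (pu L σ₁.symm)⁻¹ * (b⁻¹ * (pu L f * b'⁻¹)) := by
    rw [← hcc, hc, hc₂, hg₂]
    group
  have e2 : g * g₁⁻¹ = b' * ((pu L f)⁻¹ * (b * pu L σ₁.symm)) := by
    rw [← hcc', hc, hc₂, hg₂]
    group
  have k1 : PP w w₁ ((g₁ * g⁻¹ : (Matrix (Fin n) (Fin n) L)ˣ) : Matrix (Fin n) (Fin n) L) := by
    rw [e1, Units.val_mul, Units.val_mul, Units.val_mul]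
    have a1 : PP w₂ w₁ (((pu L σ₁.symm)⁻¹ : (Matrix (Fin n) (Fin n) L)ˣ) :
        Matrix (Fin n) (Fin n) L) := PP_pu_inv _ fun i => by simp [hw₂]
    have a2 : PP w₂ w₂ ((b⁻¹ : (Matrix (Fin n) (Fin n) L)ˣ) : Matrix (Fin n) (Fin n) L) :=
      Pw_upper hσ₁ hbi
    have a3 : PP w w ((b'⁻¹ : (Matrix (Fin n) (Fin n) L)ˣ) : Matrix (Fin n) (Fin n) L) :=
      Pw_upper hσ hbi'
    exact a1.mul (a2.mul (hPf.mul a3))
  have k2 : PP w₁ w ((g * g₁⁻¹ : (Matrix (Fin n) (Fin n) L)ˣ) : Matrix (Fin n) (Fin n) L) := by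
    rw [e2, Units.val_mul, Units.val_mul, Units.val_mul]
    have a1 : PP w₁ w₂ ((pu L σ₁.symm : (Matrix (Fin n) (Fin n) L)ˣ) :
        Matrix (Fin n) (Fin n) L) := PP_pu _ fun i => by simp [hw₂]
    have a2 : PP w₂ w₂ (b : Matrix (Fin n) (Fin n) L) := Pw_upper hσ₁ hb
    have a3 : PP w w (b' : Matrix (Fin n) (Fin n) L) := Pw_upper hσ hb'
    exact a3.mul (hPf'.mul (a2.mul a1))
  exact fun j i => ⟨k1 j i, k2 j i⟩

end Pool.Agent.Y359.KN
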