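import Pool.Agent.Y359.KN.Bru

/-!
# Transfer lemma (S_tra) and Kempf's theorem for the general linear group (S_kem)
-/

set_option autoImplicit false

namespace Pool.Agent.Y359.KN

open Matrix Pool.Agent.Y150.KN

universe v

/-- **S_tra** -/
theorem tra : S_tra.{v} := by
  intro L _ n r τ Z g g₂ w w₂ h h1 h2 t J I hne
  set p : (Matrix (Fin n) (Fin n) L)ˣ := g₂ * g⁻¹ with hp
  set q : (Matrix (Fin n) (Fin n) L)ˣ := g * g₂⁻¹ with hq
  set A := tp (Fin r) (g : Matrix (Fin n) (Fin n) L) * Z t *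
    tp (Fin r) ((g⁻¹ : (Matrix (Fin n) (Fin n) L)ˣ) : Matrix (Fin n) (Fin n) L) with hA
  have e : tp (Fin r) (g₂ : Matrix (Fin n) (Fin n) L) * Z t *
      tp (Fin r) ((g₂⁻¹ : (Matrix (Fin n) (Fin n) L)ˣ) : Matrix (Fin n) (Fin n) L) =
      tp (Fin r) (p : Matrix (Fin n) (Fin n) L) * A *
        tp (Fin r) (q : Matrix (Fin n) (Fin n) L) := by
    have e1 : (p : Matrix (Fin n) (Fin n) L) * (g : Matrix (Fin n) (Fin n) L) = g₂ := by
      rw [← Units.val_mul, hp, inv_mul_cancel_right]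
    have e2 : ((g⁻¹ : (Matrix (Fin n) (Fin n) L)ˣ) : Matrix (Fin n) (Fin n) L) *
        (q : Matrix (Fin n) (Fin n) L) =
        ((g₂⁻¹ : (Matrix (Fin n) (Fin n) L)ˣ) : Matrix (Fin n) (Fin n) L) := by
      rw [← Units.val_mul, hq, inv_mul_cancel_left]
    rw [← e1, ← e2, tp_mul, tp_mul, hA]
    simp only [Matrix.mul_assoc]
  rw [e, Matrix.mul_apply] at hne
  obtain ⟨I', -, hI'⟩ := Finset.exists_ne_zero_of_sum_ne_zero hne
  rw [Matrix.mul_apply] at hI'
  have hq0 := right_ne_zero_of_mul hI'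
  obtain ⟨J', -, hJ'⟩ := Finset.exists_ne_zero_of_sum_ne_zero (left_ne_zero_of_mul hI')
  have hp0 := left_ne_zero_of_mul hJ'
  have hA0 := right_ne_zero_of_mul hJ'
  rw [tp_apply, Finset.prod_ne_zero_iff] at hp0 hq0
  have h3 := h t J' I' hA0
  have h4 : ∑ s, w (J' s) ≤ ∑ s, w₂ (J s) :=
    Finset.sum_le_sum fun s _ => h1 _ _ (hp0 s (Finset.mem_univ s))
  have h5 : ∑ s, w₂ (I s) ≤ ∑ s, w (I' s) :=
    Finset.sum_le_sum fun s _ => h2 _ _ (hq0 s (Finset.mem_univ s))
  linarith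

section perm
variable {n : ℕ} {L : Type v} [Field L]

/-- permutation matrices as units -/
def pu (L : Type v) [Field L] (f : Equiv.Perm (Fin n)) : (Matrix (Fin n) (Fin n) L)ˣ where
  val := Matrix.of fun i j => if i = f j then 1 else 0
  inv := Matrix.of fun i j => if i = f.symm j then 1 else 0
  val_inv := by
    ext i j
    rw [Matrix.mul_apply, Finset.sum_eq_single (f.symm j)]
    · simp [Matrix.one_apply]
    · intro k _ hk
      simp [hk]
    · intro h
      exact absurd (Finset.mem_univ _) h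
  inv_val := by
    ext i j
    rw [Matrix.mul_apply, Finset.sum_eq_single (f j)]
    · simp [Matrix.one_apply]
    · intro k _ hk
      simp [hk]
    · intro h
      exact absurd (Finset.mem_univ _) h

lemma pu_apply (f : Equiv.Perm (Fin n)) (i j : Fin n) :
    (pu L f : Matrix (Fin n) (Fin n) L) i j = if i = f j then 1 else 0 := rfl

lemma pu_inv_apply (f : Equiv.Perm (Fin n)) (i j : Fin n) :
    (((pu L f)⁻¹ : (Matrix (Fin n) (Fin n) L)ˣ) : Matrix (Fin n) (Fin n) L) i j =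
      if i = f.symm j then 1 else 0 := rfl

/-- the parabolic subgroup of a weight -/
def Pw (w : Fin n → ℝ) (p : Matrix (Fin n) (Fin n) L) : Prop :=
  ∀ j i, p j i ≠ 0 → w i ≤ w j

lemma Pw.mul {w : Fin n → ℝ} {p q : Matrix (Fin n) (Fin n) L} (hp : Pw w p) (hq : Pw w q) :
    Pw w (p * q) := by
  intro j i h
  rw [Matrix.mul_apply] at h
  obtain ⟨k, -, hk⟩ := Finset.exists_ne_zero_of_sum_ne_zero h
  exact (hq k i (right_ne_zero_of_mul hk)).trans (hp j k (left_ne_zero_of_mul hk))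

lemma Pw_upper {w : Fin n → ℝ} (hw : Antitone w) {b : Matrix (Fin n) (Fin n) L}
    (hb : ∀ i j, j < i → b i j = 0) : Pw w b := by
  intro j i h
  refine hw ?_
  by_contra hcon
  exact h (hb j i (not_le.1 hcon))

lemma upper_inv {b : (Matrix (Fin n) (Fin n) L)ˣ}
    (hb : ∀ i j, j < i → (b : Matrix (Fin n) (Fin n) L) i j = 0) :
    ∀ i j, j < i → ((b⁻¹ : (Matrix (Fin n) (Fin n) L)ˣ) : Matrix (Fin n) (Fin n) L) i j = 0 := by
  have hdet : IsUnit (b : Matrix (Fin n) (Fin n) L).det :=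
    (Matrix.isUnit_iff_isUnit_det _).1 b.isUnit
  have h1 := (borel_inv (n := n) (b := (b : Matrix (Fin n) (Fin n) L)) ⟨hdet, hb⟩).2
  rw [Matrix.coe_units_inv]
  exact h1

end perm

/-- the square of the norm -/
def N2 {n : ℕ} (w : Fin n → ℝ) : ℝ := ∑ i, w i ^ 2

lemma N2_perm {n : ℕ} (w : Fin n → ℝ) (σ : Equiv.Perm (Fin n)) : N2 (w ∘ σ) = N2 w := by
  unfold N2
  exact Equiv.sum_comp σ (fun i => w i ^ 2)

/-- existence of a feasible weight of smallest norm -/
lemma exists_min {L : Type v} [Field L] {n r : ℕ} {τ : Type} [Finite τ]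
    (Z : τ → Matrix (Fin r → Fin n) (Fin r → Fin n) L) (h : ∃ g w, Feas Z g w) :
    ∃ w, (∃ g, Feas Z g w) ∧ ∀ w', (∃ g, Feas Z g w') → N2 w ≤ N2 w' := by
  classical
  let C : Set (τ × (Fin r → Fin n) × (Fin r → Fin n)) → Set (EuclideanSpace ℝ (Fin n)) := fun Q =>
    {w | ∀ x ∈ Q, ∑ s, w (x.2.2 s) + 1 ≤ ∑ s, w (x.2.1 s)}
  have hC : ∀ Q, IsClosed (C Q) := by
    intro Q
    have : C Q = ⋂ x ∈ Q, {w : EuclideanSpace ℝ (Fin n) | ∑ s, w (x.2.2 s) + 1 ≤ ∑ s, w (x.2.1 s)} := by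
      ext w
      simp [C]
    rw [this]
    refine isClosed_biInter fun x _ => isClosed_le ?_ ?_
    · fun_prop
    · fun_prop
  let sp : (Matrix (Fin n) (Fin n) L)ˣ → Set (τ × (Fin r → Fin n) × (Fin r → Fin n)) := fun g =>
    {x | (tp (Fin r) (g : Matrix (Fin n) (Fin n) L) * Z x.1 *
      tp (Fin r) ((g⁻¹ : (Matrix (Fin n) (Fin n) L)ˣ) : Matrix (Fin n) (Fin n) L)) x.2.1 x.2.2 ≠ 0}
  have hfeas : ∀ g (w : EuclideanSpace ℝ (Fin n)), Feas Z g (fun i => w i) ↔ w ∈ C (sp g) := by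
    intro g w
    constructor
    · intro hF x hx
      exact hF x.1 x.2.1 x.2.2 hx
    · intro hw t J I hne
      exact hw (t, J, I) hne
  set Λ : Set (EuclideanSpace ℝ (Fin n)) := ⋃ Q ∈ Set.range sp, C Q with hΛ
  have hΛc : IsClosed Λ := by
    rw [hΛ]
    exact Set.Finite.isClosed_biUnion (Set.toFinite _) fun Q _ => hC Q
  have hmem : ∀ w : EuclideanSpace ℝ (Fin n), w ∈ Λ ↔ ∃ g, Feas Z g (fun i => w i) := by
    intro w
    rw [hΛ, Set.mem_iUnion₂]
    constructor
    · rintro ⟨Q, ⟨g, rfl⟩, hw⟩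
      exact ⟨g, (hfeas g w).2 hw⟩
    · rintro ⟨g, hg⟩
      exact ⟨sp g, ⟨g, rfl⟩, (hfeas g w).1 hg⟩
  have hne : Λ.Nonempty := by
    obtain ⟨g, w, hF⟩ := h
    exact ⟨WithLp.toLp 2 w, (hmem _).2 ⟨g, hF⟩⟩
  obtain ⟨w, hw, hw2⟩ := hΛc.exists_infDist_eq_dist hne 0
  refine ⟨fun i => w i, (hmem w).1 hw, fun w' hw' => ?_⟩
  have h1 : dist (0 : EuclideanSpace ℝ (Fin n)) w ≤ dist (0 : EuclideanSpace ℝ (Fin n)) (WithLp.toLp 2 w') := by
    rw [← hw2]
    exact Metric.infDist_le_dist_of_mem ((hmem _).2 hw')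
  rw [dist_zero_left, dist_zero_left, EuclideanSpace.norm_eq, EuclideanSpace.norm_eq] at h1
  have h2 := (Real.sqrt_le_sqrt_iff (Finset.sum_nonneg fun i _ => by positivity)).1 h1
  simpa [N2] using h2

/-- **S_kem** -/
theorem kem : S_kem.{v} := by
  intro L _ n r τ _ Z hex
  obtain ⟨w₀, ⟨g₀, hg₀⟩, hmin₀⟩ := exists_min Z hex
  -- make the weight antitone
  obtain ⟨σ, hσ⟩ : ∃ σ : Equiv.Perm (Fin n), Antitone (w₀ ∘ σ) := by
    refine ⟨Tuple.sort (fun i => - w₀ i), ?_⟩
    have := Tuple.monotone_sort (fun i => - w₀ i)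
    intro i j hij
    have h := this hij
    simp only [Function.comp_apply] at h ⊢
    linarith
  set w : Fin n → ℝ := w₀ ∘ σ with hw
  set g : (Matrix (Fin n) (Fin n) L)ˣ := pu L σ.symm * g₀ with hg
  have hF : Feas Z g w := by
    refine tra L n r τ Z g₀ g w₀ w hg₀ ?_ ?_
    · intro j i h
      rw [hg, mul_inv_cancel_right, pu_apply] at h
      have h1 : j = σ.symm i := by
        by_contra hcon
        exact h (if_neg hcon)
      rw [hw, h1]
      simp
    · intro j i h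
      rw [hg, _root_.mul_inv_rev, mul_inv_cancel_left, pu_inv_apply] at h
      have h1 : j = σ.symm.symm i := by
        by_contra hcon
        exact h (if_neg hcon)
      rw [hw, h1]
      simp
  have hmin : ∀ w', (∃ g, Feas Z g w') → N2 w ≤ N2 w' := by
    intro w' hw'
    rw [hw, N2_perm]
    exact hmin₀ w' hw'
  refine ⟨g, w, hF, fun g₂ hF₂ => ?_⟩
  obtain ⟨b, b', f, hb, hb', hbf⟩ := bru L n (g₂ * g⁻¹)
  have hbi := upper_inv hb
  have hbi' := upper_inv hb'
  -- the two pairs in relative position `f`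
  set c : (Matrix (Fin n) (Fin n) L)ˣ := b'⁻¹ * g with hc
  set c₂ : (Matrix (Fin n) (Fin n) L)ˣ := b * g₂ with hc₂
  have hFc : Feas Z c w := by
    refine tra L n r τ Z g c w w hF ?_ ?_
    · rw [hc, mul_inv_cancel_right]
      exact Pw_upper hσ hbi'
    · rw [hc, _root_.mul_inv_rev, mul_inv_cancel_left, inv_inv]
      exact Pw_upper hσ hb'
  have hFc₂ : Feas Z c₂ w := by
    refine tra L n r τ Z g₂ c₂ w w hF₂ ?_ ?_
    · rw [hc₂, mul_inv_cancel_right]
      exact Pw_upper hσ hb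
    · rw [hc₂, _root_.mul_inv_rev, mul_inv_cancel_left]
      exact Pw_upper hσ hbi
  have hcc : c₂ * c⁻¹ = pu L f := by
    apply Units.ext
    ext i j
    rw [pu_apply, ← hbf i j, hc, hc₂, _root_.mul_inv_rev, inv_inv]
    simp only [mul_assoc]
  have hcc' : c * c₂⁻¹ = (pu L f)⁻¹ := by
    rw [← hcc]
    group
  have hFcf : Feas Z c (w ∘ f) := by
    refine tra L n r τ Z c₂ c w (w ∘ f) hFc₂ ?_ ?_
    · intro j i h
      rw [hcc', pu_inv_apply] at h
      have h1 : j = f.symm i := by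
        by_contra hcon
        exact h (if_neg hcon)
      rw [h1]
      simp
    · intro j i h
      rw [hcc, pu_apply] at h
      have h1 : j = f i := by
        by_contra hcon
        exact h (if_neg hcon)
      rw [h1]
      simp
  have hFm : Feas Z c (fun i => (w i + w (f i)) / 2) := by
    intro t J I hne
    have h1 := hFc t J I hne
    have h2 := hFcf t J I hne
    simp only [Function.comp_apply] at h2
    rw [← Finset.sum_div, ← Finset.sum_div, Finset.sum_add_distrib, Finset.sum_add_distrib]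
    linarith
  have h3 := hmin _ ⟨c, hFm⟩
  have h4 : N2 (fun i => w i - w (f i)) ≤ 0 := by
    have h5 := N2_perm w f
    have h6 : 4 * N2 (fun i => (w i + w (f i)) / 2) + N2 (fun i => w i - w (f i)) =
        2 * N2 w + 2 * N2 (w ∘ f) := by
      unfold N2
      rw [Finset.mul_sum, Finset.mul_sum, Finset.mul_sum, ← Finset.sum_add_distrib,
        ← Finset.sum_add_distrib]
      refine Finset.sum_congr rfl fun i _ => ?_
      simp only [Function.comp_apply]
      ring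
    rw [h5] at h6
    linarith
  have hwf : ∀ i, w (f i) = w i := by
    intro i
    have h5 : ∀ i ∈ Finset.univ, (w i - w (f i)) ^ 2 = 0 := by
      rw [← Finset.sum_eq_zero_iff_of_nonneg (fun i _ => sq_nonneg _)]
      exact le_antisymm h4 (Finset.sum_nonneg fun i _ => sq_nonneg _)
    have h6 := pow_eq_zero_iff (two_ne_zero) |>.1 (h5 i (Finset.mem_univ i))
    linarith
  have hPf : Pw w (pu L f : Matrix (Fin n) (Fin n) L) := by
    intro j i h
    rw [pu_apply] at h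
    have h1 : j = f i := by
      by_contra hcon
      exact h (if_neg hcon)
    rw [h1, hwf]
  have hPf' : Pw w (((pu L f)⁻¹ : (Matrix (Fin n) (Fin n) L)ˣ) : Matrix (Fin n) (Fin n) L) := by
    intro j i h
    rw [pu_inv_apply] at h
    have h1 : i = f j := by
      by_contra hcon
      apply h
      rw [if_neg]
      intro h2
      exact hcon (by rw [h2]; simp)
    rw [h1, hwf]
  have e1 : g₂ * g⁻¹ = b⁻¹ * pu L f * b'⁻¹ := by
    rw [← hcc, hc, hc₂]
    group
  have e2 : g * g₂⁻¹ = b' * (pu L f)⁻¹ * b := by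
    rw [← hcc', hc, hc₂]
    group
  have k1 : Pw w ((g₂ * g⁻¹ : (Matrix (Fin n) (Fin n) L)ˣ) : Matrix (Fin n) (Fin n) L) := by
    rw [e1, Units.val_mul, Units.val_mul]
    exact ((Pw_upper hσ hbi).mul hPf).mul (Pw_upper hσ hbi')
  have k2 : Pw w ((g * g₂⁻¹ : (Matrix (Fin n) (Fin n) L)ˣ) : Matrix (Fin n) (Fin n) L) := by
    rw [e2, Units.val_mul, Units.val_mul]
    exact ((Pw_upper hσ hb').mul hPf').mul (Pw_upper hσ hb)
  exact fun j i => ⟨k1 j i, k2 j i⟩

end Pool.Agent.Y359.KN
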